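import Pool.Agent.K1H35.SH.Stm

/-!
Piece THA of project SH: one step for the number of disagreements.
-/

set_option autoImplicit false

namespace Pool.Agent.K1H31.SH

open Finset Pool.Agent.K1H35.SH

lemma mem_nb {n : ℕ} (G : SimpleGraph (Fin n)) (v x : Fin n) : x ∈ nb G v ↔ G.Adj v x := by
  classical
  simp [nb]

lemma mem_reg {n d : ℕ} (G : SimpleGraph (Fin n)) : G ∈ reg n d ↔ ∀ v, (nb G v).card = d := by
  classical
  simp [reg]

/-- the vertices of the two labelled subgraphs -/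
noncomputable def UU {n a : ℕ} (α β : Fin a → Fin n) : Finset (Fin n) := by
  classical exact univ.image α ∪ univ.image β

lemma mem_UU {n a : ℕ} (α β : Fin a → Fin n) (x : Fin n) :
    x ∈ UU α β ↔ (∃ i, α i = x) ∨ ∃ i, β i = x := by
  classical
  simp [UU]

lemma card_UU {n a : ℕ} (α β : Fin a → Fin n) : (UU α β).card ≤ 2 * a := by
  classical
  have h1 : (univ.image α).card ≤ a := by
    have := Finset.card_image_le (s := (univ : Finset (Fin a))) (f := α)
    simpa using this
  have h2 : (univ.image β).card ≤ a := by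
    have := Finset.card_image_le (s := (univ : Finset (Fin a))) (f := β)
    simpa using this
  have h3 := Finset.card_union_le (univ.image α) (univ.image β)
  have h4 : (UU α β).card ≤ (univ.image α).card + (univ.image β).card := h3
  omega

/-- the set counted by `dis` -/
noncomputable def disS {n a : ℕ} (α β : Fin a → Fin n) (G : SimpleGraph (Fin n)) :
    Finset (Fin a × Fin a) := by
  classical exact (univ.filter (fun p : Fin a × Fin a => p.1 < p.2 ∧
    ¬ (G.Adj (α p.1) (α p.2) ↔ G.Adj (β p.1) (β p.2))))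

lemma mem_disS {n a : ℕ} (α β : Fin a → Fin n) (G : SimpleGraph (Fin n)) (p : Fin a × Fin a) :
    p ∈ disS α β G ↔ p.1 < p.2 ∧ ¬ (G.Adj (α p.1) (α p.2) ↔ G.Adj (β p.1) (β p.2)) := by
  classical
  simp [disS]

lemma dis_eq {n a : ℕ} (α β : Fin a → Fin n) (G : SimpleGraph (Fin n)) :
    dis α β G = (disS α β G).card := rfl

/-- the set counted by `non` -/
noncomputable def nonS {n a : ℕ} (α β : Fin a → Fin n) (G : SimpleGraph (Fin n)) :
    Finset (Fin a × Fin a) := by
  classical exact (univ.filter (fun p : Fin a × Fin a => p.1 < p.2 ∧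
    ¬ G.Adj (α p.1) (α p.2) ∧ ¬ G.Adj (β p.1) (β p.2)))

lemma mem_nonS {n a : ℕ} (α β : Fin a → Fin n) (G : SimpleGraph (Fin n)) (p : Fin a × Fin a) :
    p ∈ nonS α β G ↔ p.1 < p.2 ∧ ¬ G.Adj (α p.1) (α p.2) ∧ ¬ G.Adj (β p.1) (β p.2) := by
  classical
  simp [nonS]

lemma non_eq {n a : ℕ} (α β : Fin a → Fin n) (G : SimpleGraph (Fin n)) :
    non α β G = (nonS α β G).card := rfl

/-- forward tuples -/
def FP {n a : ℕ} (α β : Fin a → Fin n) (G : SimpleGraph (Fin n)) (t : Tup n) : Prop :=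
  ∃ i i' : Fin a, i < i' ∧ ¬ G.Adj (α i) (α i') ∧ ¬ G.Adj (β i) (β i') ∧ t.1 = α i ∧
    t.2.2.1 = α i' ∧ G.Adj (α i) t.2.1 ∧ G.Adj (α i') t.2.2.2 ∧ t.2.1 ∉ UU α β ∧
    t.2.2.2 ∉ UU α β ∧ ¬ G.Adj t.2.1 t.2.2.2 ∧ t.2.1 ≠ t.2.2.2

noncomputable def FF {n a : ℕ} (α β : Fin a → Fin n) (G : SimpleGraph (Fin n)) :
    Finset (Tup n) := by
  classical exact univ.filter (fun t => FP α β G t)

lemma mem_FF {n a : ℕ} (α β : Fin a → Fin n) (G : SimpleGraph (Fin n)) (t : Tup n) :
    t ∈ FF α β G ↔ FP α β G t := by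
  classical
  simp [FF]

/-- backward tuples -/
def BP {n a : ℕ} (α β : Fin a → Fin n) (G : SimpleGraph (Fin n)) (t : Tup n) : Prop :=
  ∃ p ∈ disS α β G, t.1 = α p.1 ∧ t.2.2.1 = α p.2 ∧ G.Adj t.2.1 t.2.2.2

noncomputable def BB {n a : ℕ} (α β : Fin a → Fin n) (G : SimpleGraph (Fin n)) :
    Finset (Tup n) := by
  classical exact univ.filter (fun t => BP α β G t)

lemma mem_BB {n a : ℕ} (α β : Fin a → Fin n) (G : SimpleGraph (Fin n)) (t : Tup n) :
    t ∈ BB α β G ↔ BP α β G t := by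
  classical
  simp [BB]

lemma card_FF {n D g a q : ℕ} {α β : Fin a → Fin n} (hα : Function.Injective α)
    {G : SimpleGraph (Fin n)} (hG : G ∈ reg n D) (hgap : Gap g G) (hq : q ≤ non α β G) :
    q * ((D - 2 * a) * (g - (1 + 2 * a))) ≤ (FF α β G).card := by
  classical
  set T : Finset (Σ _ : Fin a × Fin a, Σ _ : Fin n, Fin n) :=
    (nonS α β G).sigma (fun p => (nb G (α p.1) \ UU α β).sigma
      (fun x => nb G (α p.2) \ (nb G x ∪ insert x (UU α β)))) with hT
  have h1 : T.card ≤ (FF α β G).card := by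
    apply Finset.card_le_card_of_injOn
      (fun z => ((α z.1.1, z.2.1, α z.1.2, z.2.2) : Tup n))
    · intro z hz
      rw [Finset.mem_coe, hT, Finset.mem_sigma, Finset.mem_sigma, mem_nonS] at hz
      obtain ⟨⟨h1, h2, h3⟩, h4, h5⟩ := hz
      rw [Finset.mem_sdiff, mem_nb] at h4
      rw [Finset.mem_sdiff, mem_nb, Finset.mem_union, Finset.mem_insert, mem_nb] at h5
      obtain ⟨h5, h6⟩ := h5
      push Not at h6
      rw [Finset.mem_coe, mem_FF]
      refine ⟨z.1.1, z.1.2, h1, h2, h3, rfl, rfl, h4.1, h5, h4.2, h6.2.2, h6.1, ?_⟩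
      exact fun h => h6.2.1 h.symm
    · rintro ⟨⟨i, i'⟩, x, y⟩ _ ⟨⟨k, k'⟩, u, v⟩ _ h
      simp only [Prod.mk.injEq] at h
      obtain ⟨h1, h2, h3, h4⟩ := h
      obtain rfl := hα h1
      obtain rfl := hα h3
      subst h2
      subst h4
      rfl
  refine le_trans ?_ h1
  rw [hT, Finset.card_sigma]
  calc q * ((D - 2 * a) * (g - (1 + 2 * a)))
      ≤ (nonS α β G).card * ((D - 2 * a) * (g - (1 + 2 * a))) := Nat.mul_le_mul_right _ hq
    _ = ∑ _p ∈ nonS α β G, ((D - 2 * a) * (g - (1 + 2 * a))) := by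
        rw [Finset.sum_const, smul_eq_mul]
    _ ≤ _ := by
        apply Finset.sum_le_sum
        intro p _
        rw [Finset.card_sigma]
        have hx : D - 2 * a ≤ (nb G (α p.1) \ UU α β).card := by
          have h2 := Finset.le_card_sdiff (UU α β) (nb G (α p.1))
          have h3 := card_UU α β
          rw [(mem_reg G).1 hG] at h2
          omega
        calc (D - 2 * a) * (g - (1 + 2 * a))
            ≤ (nb G (α p.1) \ UU α β).card * (g - (1 + 2 * a)) := Nat.mul_le_mul_right _ hx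
          _ = ∑ _x ∈ nb G (α p.1) \ UU α β, (g - (1 + 2 * a)) := by
              rw [Finset.sum_const, smul_eq_mul]
          _ ≤ _ := by
              apply Finset.sum_le_sum
              intro x hx
              rw [Finset.mem_sdiff] at hx
              have hne : α p.2 ≠ x := by
                intro h
                exact hx.2 ((mem_UU α β x).2 (Or.inl ⟨_, h⟩))
              have h2 := hgap (α p.2) x hne
              unfold TS at h2
              rw [Finset.inter_self] at h2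
              have h3 : nb G (α p.2) \ (nb G x ∪ insert x (UU α β)) =
                  (nb G (α p.2) \ nb G x) \ insert x (UU α β) := by
                exact sdiff_sdiff_left.symm
              rw [h3]
              have h4 := Finset.le_card_sdiff (insert x (UU α β)) (nb G (α p.2) \ nb G x)
              have h5 := Finset.card_insert_le x (UU α β)
              have h6 := card_UU α β
              have h7 : (nb G (α p.2) \ nb G x).card = (nb G (α p.2) \ nb G x).card := rfl
              omega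

lemma card_BB {n D a : ℕ} {α β : Fin a → Fin n}
    {G : SimpleGraph (Fin n)} (hG : G ∈ reg n D) :
    (BB α β G).card ≤ dis α β G * (n * D) := by
  classical
  set S : Finset (Σ _ : Fin n, Fin n) := (univ : Finset (Fin n)).sigma (fun v => nb G v) with hS
  have hSc : S.card = n * D := by
    rw [hS, Finset.card_sigma, Finset.sum_congr rfl (fun v _ => (mem_reg G).1 hG v)]
    simp
  have h1 : BB α β G ⊆ ((disS α β G) ×ˢ S).image
      (fun z => ((α z.1.1, z.2.1, α z.1.2, z.2.2) : Tup n)) := by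
    intro t ht
    rw [mem_BB] at ht
    obtain ⟨p, hp, h1, h2, h3⟩ := ht
    rw [Finset.mem_image]
    refine ⟨(p, ⟨t.2.1, t.2.2.2⟩), ?_, ?_⟩
    · rw [Finset.mem_product]
      refine ⟨hp, ?_⟩
      rw [hS, Finset.mem_sigma]
      exact ⟨Finset.mem_univ _, (mem_nb _ _ _).2 h3⟩
    · simp only [← h1, ← h2]
  calc (BB α β G).card ≤ _ := Finset.card_le_card h1
    _ ≤ _ := Finset.card_image_le
    _ = dis α β G * (n * D) := by rw [Finset.card_product, hSc, dis_eq]

lemma step {n D a j : ℕ} (hSW : S_SW) {α β : Fin a → Fin n} (hd : DisjPair α β)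
    {G : SimpleGraph (Fin n)} (hG : G ∈ reg n D) (hj : dis α β G = j) {t : Tup n}
    (ht : t ∈ FF α β G) :
    sw t G ∈ reg n D ∧ dis α β (sw t G) = j + 1 ∧ t ∈ BB α β (sw t G) := by
  classical
  rw [mem_FF] at ht
  obtain ⟨x1, x2, x3, x4⟩ := t
  obtain ⟨i, i', hii, h1, h2, h3, h4, h5, h6, h7, h8, h9, h10⟩ := ht
  dsimp only at h3 h4 h5 h6 h7 h8 h9 h10
  subst h3
  subst h4
  obtain ⟨hα, hβ, hαβ⟩ := hd
  have hne : α i ≠ α i' := fun h => (ne_of_lt hii) (hα h)
  obtain ⟨hadj, -, -, -, -, -, hreg⟩ := hSW n G (α i) x2 (α i') x4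
    ⟨h5, h6, h1, hne, h9, h10⟩
  have hα2 : ∀ r, α r ≠ x2 := fun r h => h7 ((mem_UU α β x2).2 (Or.inl ⟨r, h⟩))
  have hβ2 : ∀ r, β r ≠ x2 := fun r h => h7 ((mem_UU α β x2).2 (Or.inr ⟨r, h⟩))
  have hα4 : ∀ r, α r ≠ x4 := fun r h => h8 ((mem_UU α β x4).2 (Or.inl ⟨r, h⟩))
  have hβ4 : ∀ r, β r ≠ x4 := fun r h => h8 ((mem_UU α β x4).2 (Or.inr ⟨r, h⟩))
  have hB : ∀ r s, (sw (α i, x2, α i', x4) G).Adj (β r) (β s) ↔ G.Adj (β r) (β s) := by
    intro r s
    rw [hadj]
    have a1 := hβ2 r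
    have a2 := hβ2 s
    have a3 := hβ4 r
    have a4 := hβ4 s
    have a5 := (hαβ i r).symm
    have a6 := (hαβ i' r).symm
    simp only [Sym2.eq_iff, ne_eq, a1, a2, a3, a4, a5, a6, false_and, and_false, or_self,
      or_false, false_or, not_false_eq_true, and_true]
  have hA : ∀ r s, r < s → ((sw (α i, x2, α i', x4) G).Adj (α r) (α s) ↔
      ((r = i ∧ s = i') ∨ G.Adj (α r) (α s))) := by
    intro r s hrs
    rw [hadj]
    have a1 := hα2 r
    have a2 := hα2 s
    have a3 := hα4 r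
    have a4 := hα4 s
    have e5 : ¬ (r = i' ∧ s = i) := by
      rintro ⟨rfl, rfl⟩
      exact lt_asymm hii hrs
    simp only [Sym2.eq_iff, ne_eq, a1, a2, a3, a4, hα.eq_iff, e5, false_and, and_false, or_self,
      or_false, false_or, not_false_eq_true, and_true]
  have hDS : disS α β (sw (α i, x2, α i', x4) G) = insert (i, i') (disS α β G) := by
    ext ⟨r, s⟩
    rw [Finset.mem_insert, mem_disS, mem_disS]
    dsimp only
    constructor
    · rintro ⟨hrs, h⟩
      rw [hA r s hrs, hB] at h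
      by_cases hc : r = i ∧ s = i'
      · left
        rw [hc.1, hc.2]
      · right
        refine ⟨hrs, fun h' => h ?_⟩
        rw [or_iff_right hc]
        exact h'
    · rintro (h | ⟨hrs, h⟩)
      · simp only [Prod.mk.injEq] at h
        obtain ⟨rfl, rfl⟩ := h
        refine ⟨hii, ?_⟩
        rw [hA _ _ hii, hB]
        exact fun h' => h2 (h'.1 (Or.inl ⟨rfl, rfl⟩))
      · refine ⟨hrs, ?_⟩
        rw [hA r s hrs, hB]
        by_cases hc : r = i ∧ s = i'
        · obtain ⟨rfl, rfl⟩ := hc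
          exact absurd (iff_of_false h1 h2) h
        · rw [or_iff_right hc]
          exact h
  have hnot : (i, i') ∉ disS α β G := by
    rw [mem_disS]
    rintro ⟨_, h⟩
    exact h (iff_of_false h1 h2)
  refine ⟨hreg D hG, ?_, ?_⟩
  · rw [dis_eq, hDS, Finset.card_insert_of_notMem hnot, ← dis_eq, hj]
  · rw [mem_BB]
    refine ⟨(i, i'), ?_, rfl, rfl, ?_⟩
    · rw [hDS]
      exact Finset.mem_insert_self _ _
    · rw [hadj]
      left
      right
      rfl

theorem t_THA (hSW : S_SW) (hDC : S_DC) : S_THA := by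
  intro n D g a q j α β hd h4 hg
  have h := hDC n D (fun G => Gap g G ∧ dis α β G = j ∧ q ≤ non α β G)
    (fun G => dis α β G = j + 1) (FF α β) (BB α β)
    (q * ((D - 2 * a) * (g - (1 + 2 * a)))) ((j + 1) * (n * D))
    (fun G hG hP t ht => step hSW hd hG hP.2.1 ht)
    (fun G hG hP => card_FF hd.1 hG hP.1 hP.2.2)
    (fun G hG hQ => by
      have := card_BB (α := α) (β := β) hG
      rw [hQ] at this
      exact this)
  set cP := cnt n D (fun G => Gap g G ∧ dis α β G = j ∧ q ≤ non α β G) with hcP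
  set cQ := cnt n D (fun G => dis α β G = j + 1) with hcQ
  obtain ⟨D', hD'⟩ : ∃ D', D' = D - 2 * a := ⟨_, rfl⟩
  obtain ⟨g', hg'⟩ : ∃ g', g' = g - (1 + 2 * a) := ⟨_, rfl⟩
  rw [← hD', ← hg'] at h
  have hD2 : D ≤ 2 * D' := by omega
  have hg2 : g ≤ 2 * g' := by omega
  calc cP * (q * D * g) ≤ cP * (q * (2 * D') * (2 * g')) := by gcongr
    _ = 4 * (q * (D' * g') * cP) := by ring
    _ ≤ 4 * ((j + 1) * (n * D) * cQ) := Nat.mul_le_mul_left 4 h
    _ = 4 * (j + 1) * n * D * cQ := by ring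

end Pool.Agent.K1H31.SH
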